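import Pool.Agent.helper62.DP8.Spec

set_option autoImplicit false

namespace Pool.Agent.helper62.DP8

/-- sum over the neighbours. -/
theorem NCU_sum {V : Type} [Fintype V] (G : SimpleGraph V) (h3 : Sub3 G) (N : Finset V) :
    ∑ z ∈ N, (G.neighborSet z).ncard ≤ 3 * N.card := by
  calc ∑ z ∈ N, (G.neighborSet z).ncard ≤ ∑ _z ∈ N, 3 := Finset.sum_le_sum (fun z _ => h3 z)
    _ = 3 * N.card := by rw [Finset.sum_const, smul_eq_mul, mul_comm]

theorem NCU (hMON : MON_stmt) (hLST : LST_stmt) (hEXT : EXT_stmt) (hDGB : DGB_stmt) (hDG9 : DG9_stmt)
    (hGOA : GOA_stmt) : NCU_stmt := by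
  classical
  intro V _ G hc h3 hx
  obtain ⟨x, hx⟩ := hx
  have hcard : ∀ z : V, (Finset.univ.filter (fun w => G.Adj z w)).card = (G.neighborSet z).ncard := by
    intro z
    rw [← Set.ncard_coe_finset]
    congr 1
    ext w
    simp
  have hmem : ∀ z w : V, w ∈ Finset.univ.filter (fun w => G.Adj z w) ↔ G.Adj z w := by
    intro z w
    simp
  by_cases hn : ∃ y, G.Adj x y
  · obtain ⟨y, hy⟩ := hn
    have hne : y ≠ x := hy.ne'
    apply hGOA V G (fun v => if v = x then 3 else if v = y then 1 else 0)
    · intro v
      by_cases hvx : v = x
      · subst hvx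
        have h1 := hDGB V G v _ (hmem v)
        have h2 := NCU_sum G h3 (Finset.univ.filter (fun w => G.Adj v w))
        rw [hcard] at h2
        simp only [if_true]
        omega
      · by_cases hvy : v = y
        · subst hvy
          have h1 := hDGB V G v _ (hmem v)
          have hxN : x ∈ Finset.univ.filter (fun w => G.Adj v w) := by simp [hy.symm]
          have h2 := NCU_sum G h3 ((Finset.univ.filter (fun w => G.Adj v w)).erase x)
          rw [← Finset.add_sum_erase _ _ hxN] at h1
          have h4 := Finset.card_erase_add_one hxN
          rw [hcard] at h4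
          have h5 := h3 v
          simp only [hvx, if_false, if_true]
          omega
        · have h1 := hDG9 V G h3 v
          simp only [hvx, hvy, if_false]
          omega
    · apply hEXT V G hc {x, y} ⟨x, by simp⟩
      · intro z hz
        simp only [Finset.mem_insert, Finset.mem_singleton] at hz
        rcases hz with hz | hz
        · subst hz
          exact ⟨y, by simp, hy⟩
        · subst hz
          exact ⟨x, by simp, hy.symm⟩
      · apply hLST V (sq G) {x, y} _ x (by simp) (by simp)
        have hadj : (sq G).Adj x y := ⟨hne.symm, Or.inl hy⟩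
        apply hLST V (sq G) _ _ y
        · simp [hne]
        · simp [hne, hadj]
        · have hem : (({x, y} : Finset V).erase x).erase y = ∅ := by
            ext z
            simp only [Finset.mem_erase, Finset.mem_insert, Finset.mem_singleton, Finset.notMem_empty, iff_false]
            rintro ⟨h1, h2, h3 | h3⟩
            · exact h2 h3
            · exact h1 h3
          rw [hem]
          exact hMON.2 V (sq G) _
  · have hall : ∀ v, v = x := by
      intro v
      obtain ⟨p⟩ := hc.preconnected x v
      cases p with
      | nil => rfl
      | cons h _ => exact absurd ⟨_, h⟩ hn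
    intro W R L _ _ h8
    have hex : ∀ v, ∃ w, w ∈ L v := by
      intro v
      have := h8 v
      have h0 : (L v).Nonempty := by
        rw [← Finset.card_pos]
        omega
      exact h0
    choose f hf using hex
    exact ⟨f, hf, fun u v huv => absurd ((hall u).trans (hall v).symm) huv⟩

end Pool.Agent.helper62.DP8
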